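import Pool.Agent.Helper665_GA.HClass

/-!
# Homomorphisms of Leavitt path algebras into C*-algebras up to homotopy

Up to homotopy, `C*(E)` has the same homomorphisms into C*-algebras as `L_ℂ(E)`: restriction to
`L_ℂ(E)` is a bijection from the homotopy classes of star homomorphisms `C*(E) → A` to the
homotopy classes of algebra homomorphisms `L_ℂ(E) → A`. Hence every algebra isomorphism
`L_ℂ(E) → L_ℂ(F)` is induced, up to homotopy, by a homotopy equivalence `C*(E) → C*(F)` which is
unique up to homotopy.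
-/

set_option autoImplicit false

namespace Pool.Agent.Results.MP_8f60dc_al.HomotopyClasses

open Pool.Agent.Helper665_GA

/-- The star homomorphism `f : C*(E) → A` induces `θ : L_ℂ(E) → A` up to homotopy: the restriction
of `f` to `L_ℂ(E)` is homotopic to `θ`. -/
def Induces {E : Graph} {A : Type} [NonUnitalCStarAlgebra A] (f : CStar E →⋆ₙₐ[ℂ] A)
    (θ : Leavitt ℂ E →ₙₐ[ℂ] A) : Prop := AlgHomotopic (CStar.res f) θ

/-- The star homomorphism `f` is a homotopy equivalence. -/
def IsHomotopyEquiv {E F : Graph} (f : CStar E →⋆ₙₐ[ℂ] CStar F) : Prop :=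
  ∃ g : CStar F →⋆ₙₐ[ℂ] CStar E, Homotopic (g.comp f) (NonUnitalStarAlgHom.id ℂ (CStar E)) ∧
    Homotopic (f.comp g) (NonUnitalStarAlgHom.id ℂ (CStar F))

/-- Every algebra homomorphism `L_ℂ(E) → A` is induced up to homotopy by a star homomorphism
`C*(E) → A`. -/
def Surj (E : Graph) (A : Type) [NonUnitalCStarAlgebra A] : Prop :=
  ∀ θ : Leavitt ℂ E →ₙₐ[ℂ] A, ∃ f : CStar E →⋆ₙₐ[ℂ] A, Induces f θ

/-- Star homomorphisms `C*(E) → A` are homotopic if and only if their restrictions to `L_ℂ(E)`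
are homotopic. -/
def Inj (E : Graph) (A : Type) [NonUnitalCStarAlgebra A] : Prop :=
  ∀ f g : CStar E →⋆ₙₐ[ℂ] A, Homotopic f g ↔ Induces f (CStar.res g)

/-- The canonical map `L_ℂ(F) → C*(F)` after `φ : L_ℂ(E) → L_ℂ(F)`. -/
noncomputable def canComp {E F : Graph} (φ : Leavitt ℂ E →ₙₐ[ℂ] Leavitt ℂ F) :
    Leavitt ℂ E →ₙₐ[ℂ] CStar F := (Leavitt.can F).comp φ

/-- Let `E` be a countable graph.

(1) For every C*-algebra `A`, every algebra homomorphism `θ : L_ℂ(E) → A` is homotopic to the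
restriction of a star homomorphism `f : C*(E) → A`, and two star homomorphisms `C*(E) → A` are
homotopic if and only if their restrictions to `L_ℂ(E)` are homotopic.

(2) For every countable graph `F` and every algebra isomorphism `φ : L_ℂ(E) → L_ℂ(F)` there is a
homotopy equivalence `f : C*(E) → C*(F)`, unique up to homotopy, whose restriction to `L_ℂ(E)` is
homotopic to `φ` followed by the canonical map `L_ℂ(F) → C*(F)`. -/
theorem result (E : Graph) [Countable E.V] [Countable E.E] :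
    (∀ (A : Type) [NonUnitalCStarAlgebra A], Surj E A ∧ Inj E A) ∧
    ∀ (F : Graph) [Countable F.V] [Countable F.E] (φ : Leavitt ℂ E →ₙₐ[ℂ] Leavitt ℂ F),
      Function.Bijective φ → ∃ f : CStar E →⋆ₙₐ[ℂ] CStar F, IsHomotopyEquiv f ∧
        ∀ f' : CStar E →⋆ₙₐ[ℂ] CStar F, Induces f' (canComp φ) ↔ Homotopic f' f := by
  refine ⟨fun A _ => ⟨fun θ => exists_res_homotopic θ, fun f g =>
    ⟨res_homotopic, homotopic_of_res⟩⟩, fun F _ _ φ hφ => ?_⟩
  obtain ⟨ψ, h1, h2⟩ := exists_inverse φ hφ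
  obtain ⟨f, hf⟩ := exists_res_homotopic ((Leavitt.can F).comp φ)
  obtain ⟨g, hg⟩ := exists_res_homotopic ((Leavitt.can E).comp ψ)
  exact ⟨f, ⟨g, comp_homotopic_id h1 hf hg, comp_homotopic_id h2 hg hf⟩, fun f' =>
    ⟨fun hf' => homotopic_of_res (AlgHomotopic.trans hf' hf.symm),
      fun h => AlgHomotopic.trans (res_homotopic h) hf⟩⟩

end Pool.Agent.Results.MP_8f60dc_al.HomotopyClasses
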